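import Mathlib

/-!
# A rigid maximal diameter-5 subset of the 7-cube with 37 points

We exhibit a set of `37 > 2 ^ 5` points of the `7`-cube which has diameter `5`, is maximal with
this property, and in which every point has a point at distance `5`.
-/

open Finset

namespace Pool.Agent.Results.MP_b9e9b1_co.RigidSet

/-- The `n`-cube (the two signs are written as Booleans). -/
abbrev Q (n : ℕ) : Type := Fin n → Bool

/-- The diameter of a finite subset of the cube: the largest Hamming distance of two of its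
points. -/
def diam {n : ℕ} (A : Finset (Q n)) : ℕ := (A ×ˢ A).sup fun p => hammingDist p.1 p.2

/-- `A` is maximally diameter-`r`. -/
def MaximallyDiam {n : ℕ} (r : ℕ) (A : Finset (Q n)) : Prop :=
  A.Nonempty ∧ diam A = r ∧ ∀ x, x ∉ A → r < diam (insert x A)

/-- `A` is rigid: the largest distance from any of its points is the diameter. -/
def Rigid {n : ℕ} (A : Finset (Q n)) : Prop :=
  ∀ a ∈ A, (A.sup fun x => hammingDist x a) = diam A

/-- `b'(n; r)`: the largest cardinality of a rigid, maximally diameter-`r` subset of `Q n`. -/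
noncomputable def b' (n r : ℕ) : ℕ :=
  sSup {m | ∃ A : Finset (Q n), MaximallyDiam r A ∧ Rigid A ∧ A.card = m}

/-- the point of the `7`-cube with given binary expansion -/
def pt (m : Fin 128) : Q 7 := fun i => m.val.testBit i.val

/-- the codes of the `37` points -/
def L : List (Fin 128) := [0, 1, 3, 5, 9, 16, 19, 21, 25, 33, 46, 49, 64, 66, 67, 68, 69, 71, 72,
  73, 75, 77, 82, 84, 87, 88, 91, 93, 96, 97, 99, 101, 105, 112, 115, 117, 121]

theorem pt_injective : Function.Injective pt := by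
  have key : ∀ a b : Fin 128, (∀ i : Fin 7, a.val.testBit i.val = b.val.testBit i.val) →
      a = b := by decide +kernel
  intro a b h
  exact key a b fun i => congrFun h i

theorem pt_surjective : Function.Surjective pt := by
  have : Function.Bijective pt := by
    rw [Fintype.bijective_iff_injective_and_card]
    exact ⟨pt_injective, by simp⟩
  exact this.2

/-- the set of `37` points -/
def A₀ : Finset (Q 7) := (L.map pt).toFinset

theorem mem_A₀ (m : Fin 128) : pt m ∈ A₀ ↔ m ∈ L := by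
  simp only [A₀, List.mem_toFinset, List.mem_map]
  constructor
  · rintro ⟨a, ha, h⟩
    rwa [← pt_injective h]
  · intro h
    exact ⟨m, h, rfl⟩

theorem card_A₀ : A₀.card = 37 := by
  rw [A₀, List.toFinset_card_of_nodup]
  · rfl
  · exact (List.nodup_map_iff pt_injective).2 (by decide)

theorem dist_le : ∀ a ∈ L, ∀ b ∈ L, hammingDist (pt a) (pt b) ≤ 5 := by decide +kernel

theorem dist_eq : ∀ a ∈ L, ∃ b ∈ L, hammingDist (pt b) (pt a) = 5 := by decide +kernel

theorem dist_gt : ∀ a : Fin 128, a ∉ L → ∃ b ∈ L, 5 < hammingDist (pt a) (pt b) := by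
  decide +kernel

theorem diam_A₀ : diam A₀ = 5 := by
  refine le_antisymm (Finset.sup_le ?_) ?_
  · rintro ⟨x, y⟩ h
    rw [Finset.mem_product] at h
    obtain ⟨a, rfl⟩ := pt_surjective x
    obtain ⟨b, rfl⟩ := pt_surjective y
    exact dist_le a ((mem_A₀ a).1 h.1) b ((mem_A₀ b).1 h.2)
  · obtain ⟨b, hb, h⟩ := dist_eq 0 (by decide)
    rw [← h]
    exact Finset.le_sup (f := fun p : Q 7 × Q 7 => hammingDist p.1 p.2) (b := (pt b, pt 0))
      (Finset.mem_product.2 ⟨(mem_A₀ b).2 hb, (mem_A₀ 0).2 (by decide)⟩)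

theorem maximal_A₀ : MaximallyDiam 5 A₀ := by
  refine ⟨⟨pt 0, (mem_A₀ 0).2 (by decide)⟩, diam_A₀, fun x hx => ?_⟩
  obtain ⟨a, rfl⟩ := pt_surjective x
  rw [mem_A₀] at hx
  obtain ⟨b, hb, h⟩ := dist_gt a hx
  refine lt_of_lt_of_le h ?_
  exact Finset.le_sup (f := fun p : Q 7 × Q 7 => hammingDist p.1 p.2) (b := (pt a, pt b))
    (Finset.mem_product.2 ⟨Finset.mem_insert_self _ _,
      Finset.mem_insert_of_mem ((mem_A₀ b).2 hb)⟩)

theorem rigid_A₀ : Rigid A₀ := by
  intro x hx
  obtain ⟨a, rfl⟩ := pt_surjective x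
  rw [mem_A₀] at hx
  rw [diam_A₀]
  refine le_antisymm (Finset.sup_le ?_) ?_
  · intro y hy
    obtain ⟨b, rfl⟩ := pt_surjective y
    exact dist_le b ((mem_A₀ b).1 hy) a hx
  · obtain ⟨b, hb, h⟩ := dist_eq a hx
    rw [← h]
    exact Finset.le_sup (f := fun x : Q 7 => hammingDist x (pt a)) ((mem_A₀ b).2 hb)

theorem le_b' {n r m : ℕ} (A : Finset (Q n)) (h1 : MaximallyDiam r A) (h2 : Rigid A)
    (h3 : A.card = m) : m ≤ b' n r := by
  refine le_csSup ⟨2 ^ n, ?_⟩ ⟨A, h1, h2, h3⟩
  rintro k ⟨B, -, -, rfl⟩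
  have := Finset.card_le_univ B
  simpa using this

/-- Negative answer to Q1 of MP_b9e9b1_co: the `7`-cube contains a rigid, maximally diameter-`5`
set with `37` points, so `b'(7; 5) ≥ 37 > 2 ^ 5`. -/
theorem result :
    (∃ A : Finset (Q 7), MaximallyDiam 5 A ∧ Rigid A ∧ A.card = 37) ∧ 37 ≤ b' 7 5 ∧
      ¬ ∀ n r : ℕ, r ≤ n → b' n r = 2 ^ r := by
  have h37 : 37 ≤ b' 7 5 := le_b' A₀ maximal_A₀ rigid_A₀ card_A₀
  refine ⟨⟨A₀, maximal_A₀, rigid_A₀, card_A₀⟩, h37, fun h => ?_⟩
  rw [h 7 5 (by norm_num)] at h37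
  norm_num at h37

end Pool.Agent.Results.MP_b9e9b1_co.RigidSet
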